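import Pool.Agent.helper58.BR.SpecN

set_option autoImplicit false

namespace Pool.Agent.BR

open Pool.Agent.helper58.DC Pool.Agent.DI Pool.Agent.GR Pool.Agent.OB Pool.Agent.DR Pool.Agent.FI Pool.Agent.FI3 Pool.Agent.FI4 Pool.Agent.LE

theorem BDR2 (hBD3 : BD3_stmt) (hRKI : RKI_stmt) (hLOA : LOA_stmt) : BDR2_stmt := by
  intro p M hS hp2 r hr G _ _ D x θ χ hR hH
  have hL := hLOA p M hS G D x θ χ hR
  exact hBD3 p M hS hp2 (r * (r + 1) ^ 2) G D x θ χ hR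
    (hRKI p r hS.pr hr G D (TT M D θ) hR.com hR.dfa.pgrp (fun t ht => ht.1) hL.bet hH.1)

end Pool.Agent.BR
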